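import Pool.Agent.Helper1.SQ.Defs

/-!
Project SQ (MP_36c81c_nt): the master inequality (helper5).
-/

set_option autoImplicit false
open Finset

namespace Pool.Agent.Helper5.SQ

open Pool.Agent.Helper1.SQ

theorem big_prime {N H a m p : ℕ} (hm : m ∈ cnt N H 1 a) (hp : p.Prime)
    (hpm : p ∣ m) : 2 ^ a < p ∧ 16 < p := by
  unfold cnt at hm
  rw [Finset.mem_filter] at hm
  obtain ⟨_, _, hcop, hno⟩ := hm
  have h1 : ¬ p ∣ 30030 := by
    intro h
    have h2 : p ∣ Nat.gcd m 30030 := Nat.dvd_gcd hpm h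
    rw [hcop.gcd_eq_one] at h2
    exact hp.one_lt.ne' (Nat.dvd_one.mp h2)
  have h16 : 16 < p := by
    by_contra hcon
    push Not at hcon
    have h0 : 0 < p := hp.pos
    interval_cases p <;> first | (norm_num at h1; done) | (norm_num at hp; done)
  refine ⟨?_, h16⟩
  by_contra hcon
  push Not at hcon
  apply hno p _ hpm
  unfold PB
  rw [Finset.mem_filter, Finset.mem_Ioc]
  exact ⟨⟨by norm_num; exact h16, hcon⟩, hp⟩

theorem inner_le {N H a k m : ℕ} (hm : m ∈ cnt N H 1 a) :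
    ∑ p ∈ m.primeFactors, m.factorization p * (k - Nat.log 2 p) ≤
      ∑ i ∈ Ico a k, ∑ p ∈ PB i (i + 1), m.factorization p * (k - i) := by
  have hmaps : ∀ p ∈ m.primeFactors.filter (fun p => Nat.log 2 p < k), Nat.log 2 p ∈ Ico a k := by
    intro p hp
    rw [Finset.mem_filter] at hp
    obtain ⟨h1, _⟩ := big_prime hm (Nat.prime_of_mem_primeFactors hp.1)
      (Nat.dvd_of_mem_primeFactors hp.1)
    rw [Finset.mem_Ico]
    exact ⟨Nat.le_log_of_pow_le (by norm_num) h1.le, hp.2⟩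
  have h1 : ∑ p ∈ m.primeFactors, m.factorization p * (k - Nat.log 2 p) =
      ∑ p ∈ m.primeFactors.filter (fun p => Nat.log 2 p < k),
        m.factorization p * (k - Nat.log 2 p) := by
    symm
    apply Finset.sum_subset (Finset.filter_subset _ _)
    intro p hp hnot
    have h2 : k ≤ Nat.log 2 p := by
      by_contra hcon
      push Not at hcon
      exact hnot (Finset.mem_filter.mpr ⟨hp, hcon⟩)
    rw [Nat.sub_eq_zero_of_le h2, mul_zero]
  rw [h1, ← Finset.sum_fiberwise_of_maps_to hmaps]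
  apply Finset.sum_le_sum
  intro i _
  have h2 : ∑ p ∈ (m.primeFactors.filter (fun p => Nat.log 2 p < k)).filter
      (fun p => Nat.log 2 p = i), m.factorization p * (k - Nat.log 2 p) =
      ∑ p ∈ (m.primeFactors.filter (fun p => Nat.log 2 p < k)).filter
      (fun p => Nat.log 2 p = i), m.factorization p * (k - i) := by
    apply Finset.sum_congr rfl
    intro p hp
    rw [(Finset.mem_filter.mp hp).2]
  rw [h2]
  apply Finset.sum_le_sum_of_subset
  intro p hp
  rw [Finset.mem_filter, Finset.mem_filter] at hp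
  obtain ⟨⟨hp1, _⟩, hp3⟩ := hp
  have hpr := Nat.prime_of_mem_primeFactors hp1
  obtain ⟨_, h16⟩ := big_prime hm hpr (Nat.dvd_of_mem_primeFactors hp1)
  have hlow : 2 ^ i ≤ p := by
    rw [← hp3]
    exact Nat.pow_log_le_self 2 hpr.pos.ne'
  have hup : p < 2 ^ (i + 1) := by
    rw [← hp3]
    exact Nat.lt_pow_succ_log_self (by norm_num) p
  have hi : 2 ≤ i := by
    by_contra hcon
    push Not at hcon
    have : 2 ^ (i + 1) ≤ 2 ^ 2 := Nat.pow_le_pow_right (by norm_num) (by omega)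
    omega
  have hne : 2 ^ i ≠ p := by
    intro h
    rw [← h] at hpr
    exact Nat.Prime.not_prime_pow hi hpr
  unfold PB
  rw [Finset.mem_filter, Finset.mem_Ioc]
  exact ⟨⟨lt_of_le_of_ne hlow hne, hup.le⟩, hpr⟩

theorem sum_fact_le {N H a p : ℕ} :
    ∑ m ∈ cnt N H 1 a, m.factorization p ≤ (cnt N H p a).card + hpw N H a p := by
  have h1 : (cnt N H p a).card = ∑ m ∈ cnt N H 1 a, (if p ∣ m then 1 else 0) := by
    rw [← Finset.card_filter]
    congr 1
    unfold cnt
    rw [Finset.filter_filter]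
    apply Finset.filter_congr
    intro m _
    constructor
    · rintro ⟨h1, h2, h3⟩
      exact ⟨⟨one_dvd _, h2, h3⟩, h1⟩
    · rintro ⟨⟨_, h2, h3⟩, h1⟩
      exact ⟨h1, h2, h3⟩
  rw [h1]
  unfold hpw
  rw [← Finset.sum_add_distrib]
  apply Finset.sum_le_sum
  intro m _
  by_cases h : p ∣ m
  · rw [if_pos h]
    omega
  · rw [if_neg h, Nat.factorization_eq_zero_of_not_dvd h]

theorem mt (hW : Wt) : MT := by
  intro N H k Λ a ha hNH hlt
  by_contra hcon
  push Not at hcon
  have hS : ∀ m ∈ cnt N H 1 a, m ∈ Ioc N (N + H) := by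
    intro m hm
    unfold cnt at hm
    exact (Finset.mem_filter.mp hm).1
  have h1 : ∀ m ∈ cnt N H 1 a, 4 * k ≤
      ∑ i ∈ Ico a k, ∑ p ∈ PB i (i + 1), m.factorization p * (k - i) + Λ := by
    intro m hm
    have hmem := hS m hm
    have h2 := hcon m hmem
    rw [Finset.mem_Ioc] at hmem
    have h3 := hW k Λ m (by omega) (by omega)
    have h4 := inner_le (k := k) hm
    have h5 : 4 * k ≤ k * ArithmeticFunction.cardFactors m := by
      rw [mul_comm]
      exact Nat.mul_le_mul_left k (by omega)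
    omega
  have h2 : ∑ m ∈ cnt N H 1 a, 4 * k ≤ ∑ m ∈ cnt N H 1 a,
      (∑ i ∈ Ico a k, ∑ p ∈ PB i (i + 1), m.factorization p * (k - i) + Λ) :=
    Finset.sum_le_sum h1
  rw [Finset.sum_const, smul_eq_mul, Finset.sum_add_distrib, Finset.sum_const, smul_eq_mul,
    Finset.sum_comm] at h2
  have h3 : ∑ i ∈ Ico a k, ∑ m ∈ cnt N H 1 a, ∑ p ∈ PB i (i + 1), m.factorization p * (k - i) ≤
      ∑ i ∈ Ico a k, (k - i) * ∑ p ∈ PB i (i + 1), ((cnt N H p a).card + hpw N H a p) := by
    apply Finset.sum_le_sum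
    intro i _
    rw [Finset.sum_comm, Finset.mul_sum]
    apply Finset.sum_le_sum
    intro p _
    rw [← Finset.sum_mul, mul_comm]
    exact Nat.mul_le_mul_left _ sum_fact_le
  have h4 : (cnt N H 1 a).card * (4 * k) ≤
      ∑ i ∈ Ico a k, (k - i) * ∑ p ∈ PB i (i + 1), ((cnt N H p a).card + hpw N H a p) +
      (cnt N H 1 a).card * Λ := by
    linarith
  have h5 : (((cnt N H 1 a).card * (4 * k) : ℕ) : ℝ) ≤
      ((∑ i ∈ Ico a k, (k - i) * ∑ p ∈ PB i (i + 1), ((cnt N H p a).card + hpw N H a p) +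
      (cnt N H 1 a).card * Λ : ℕ) : ℝ) := by exact_mod_cast h4
  push_cast at h5
  have h6 : ∑ i ∈ Ico a k, (((k - i : ℕ)) : ℝ) * ∑ p ∈ PB i (i + 1),
      (((cnt N H p a).card : ℝ) + hpw N H a p) =
      ∑ i ∈ Ico a k, ((k : ℝ) - i) * ∑ p ∈ PB i (i + 1),
      (((cnt N H p a).card : ℝ) + hpw N H a p) := by
    apply Finset.sum_congr rfl
    intro i hi
    rw [Finset.mem_Ico] at hi
    rw [Nat.cast_sub hi.2.le]
  rw [h6] at h5
  linarith

end Pool.Agent.Helper5.SQ
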